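import Pool.Agent.H256R2.EF.MAIN
import Pool.Agent.H591R2.Egy.Defs

/-!
# Short Egyptian fractions, and short certificates for `L(x/y) ≤ k`

`minLen x y` is the minimum length `L(x/y)` of an Egyptian fraction representation of `x/y`
(`Pool.Agent.H591R2.Egy.Defs`). Write `X = log log y * log (3 + log log y)`.

1. `L(x/y) ≤ C X` for all `0 < x < y`, `y ≥ 3`. (Known: `O(√(log y))`, Vose; it is conjectured that
   `O(log log y)` terms suffice.)
2. In a representation with `k` terms all denominators are at most `(k y) ^ (2 ^ (k - 1))`.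
3. Hence `L(x/y) ≤ k` if and only if there is a representation with at most `k` terms whose denominators `n`
   satisfy `log n ≤ exp (C X) = (log y) ^ (C log (3 + log log y))`: the decision problem has certificates of
   quasi-polynomial length `N ^ (O (log log N))`, `N = log y`; every shortest representation is one.

Source of (1): `Pool.Agent.H256R2.EF` of the starting library, never handed in.
-/

set_option autoImplicit false

namespace Pool.Agent.Results.MP_a692c2_lc.ShortRepresentations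

open Finset Pool.Agent.H591R2.Egy

/-- the denominators of a representation with `k` terms are at most `(k y) ^ (2 ^ (k - 1))` -/
theorem den_le : ∀ (k x y : ℕ) (s : Finset ℕ), 0 < x → 0 < y → (∀ n ∈ s, 0 < n) → s.card = k →
    ∑ n ∈ s, (1 / (n : ℚ)) = (x : ℚ) / (y : ℚ) → ∀ n ∈ s, n ≤ (k * y) ^ (2 ^ (k - 1)) := by
  intro k
  induction k with
  | zero =>
    intro x y s _ _ _ hs _ n hn
    rw [card_eq_zero] at hs
    simp [hs] at hn
  | succ k ih =>
    intro x y s hx hy hpos hs hsum n hn
    have hne : s.Nonempty := ⟨n, hn⟩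
    obtain ⟨m, hm, hle⟩ : ∃ m ∈ s, ∀ n ∈ s, m ≤ n :=
      ⟨s.min' hne, s.min'_mem hne, fun n hn => s.min'_le n hn⟩
    have hm0 : 0 < m := hpos m hm
    have hmq : (0 : ℚ) < m := by exact_mod_cast hm0
    have hyq : (0 : ℚ) < y := by exact_mod_cast hy
    have h1 : (x : ℚ) / y ≤ ((k + 1 : ℕ) : ℚ) / m := by
      rw [← hsum]
      calc ∑ n ∈ s, (1 / (n : ℚ)) ≤ ∑ _n ∈ s, (1 / (m : ℚ)) :=
            sum_le_sum fun n hn => one_div_le_one_div_of_le hmq (by exact_mod_cast hle n hn)
        _ = _ := by rw [sum_const, hs, nsmul_eq_mul]; ring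
    have h2 : m ≤ (k + 1) * y := by
      rw [div_le_div_iff₀ hyq hmq] at h1
      have h3 : x * m ≤ (k + 1) * y := by exact_mod_cast h1
      exact (Nat.le_mul_of_pos_left m hx).trans h3
    have hky : 1 ≤ (k + 1) * y := Nat.mul_pos (Nat.succ_pos k) hy
    have hpow : (k + 1) * y ≤ ((k + 1) * y) ^ (2 ^ (k + 1 - 1)) :=
      Nat.le_self_pow (by positivity) _
    rcases eq_or_ne n m with rfl | hnm
    · exact h2.trans hpow
    · have hn' : n ∈ s.erase m := mem_erase.2 ⟨hnm, hn⟩
      have hcard : (s.erase m).card = k := by rw [card_erase_of_mem hm, hs]; rfl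
      have hk : 1 ≤ k := by rw [← hcard]; exact card_pos.2 ⟨n, hn'⟩
      have hs' : ∑ i ∈ s.erase m, (1 / (i : ℚ)) = (x : ℚ) / y - 1 / m := by
        rw [← hsum, ← add_sum_erase s _ hm]
        ring
      have hpos' : (0 : ℚ) < ∑ i ∈ s.erase m, (1 / (i : ℚ)) :=
        sum_pos (fun i hi => by
          have : (0 : ℚ) < i := by exact_mod_cast hpos i (mem_of_mem_erase hi)
          positivity) ⟨n, hn'⟩
      have hxy : y < x * m := by
        have h4 : (1 : ℚ) / m < x / y := by rw [hs'] at hpos'; linarith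
        rw [div_lt_div_iff₀ hmq hyq] at h4
        have : (1 : ℕ) * y < x * m := by exact_mod_cast h4
        simpa using this
      have h5 := ih (x * m - y) (y * m) (s.erase m) (by omega) (Nat.mul_pos hy hm0)
        (fun i hi => hpos i (mem_of_mem_erase hi)) hcard (by
          rw [hs', Nat.cast_sub hxy.le]
          push_cast
          field_simp) n hn'
      refine h5.trans ?_
      obtain ⟨j, rfl⟩ : ∃ j, k = j + 1 := ⟨k - 1, by omega⟩
      simp only [Nat.add_sub_cancel]
      calc ((j + 1) * (y * m)) ^ (2 ^ j) ≤ (((j + 1 + 1) * y) ^ 2) ^ (2 ^ j) := by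
            apply Nat.pow_le_pow_left
            calc (j + 1) * (y * m) ≤ (j + 1 + 1) * (y * ((j + 1 + 1) * y)) := by
                  gcongr
                  omega
              _ = ((j + 1 + 1) * y) ^ 2 := by ring
        _ = _ := by rw [← pow_mul, pow_succ 2 j, mul_comm 2]

/-- `log log y * log (3 + log log y)` -/
noncomputable def X (y : ℕ) : ℝ := Real.log (Real.log y) * Real.log (3 + Real.log (Real.log y))

theorem exists_rep {x y : ℕ} (hx : 0 < x) (hxy : x < y) (hy : 3 ≤ y) :
    ∃ s, IsEgy x y s ∧ s.card = minLen x y := by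
  obtain ⟨C, hC⟩ := Pool.Agent.H256R2.EF.main
  obtain ⟨S, h0, hS, -⟩ := hC x y hx hxy hy
  have hne : S.Nonempty := by
    rw [nonempty_iff_ne_empty]
    rintro rfl
    rw [sum_empty] at hS
    have : (0 : ℚ) < (x : ℚ) / y := by
      have h1 : (0 : ℚ) < x := by exact_mod_cast hx
      have h2 : (0 : ℚ) < y := by exact_mod_cast (by omega : 0 < y)
      positivity
    linarith
  have : ({k | ∃ s, IsEgy x y s ∧ s.card = k} : Set ℕ).Nonempty :=
    ⟨S.card, S, ⟨hne, fun n hn => Nat.pos_of_ne_zero (fun h => h0 (h ▸ hn)), hS⟩, rfl⟩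
  exact Nat.sInf_mem this

theorem minLen_le {x y : ℕ} {s : Finset ℕ} (h : IsEgy x y s) : minLen x y ≤ s.card :=
  Nat.sInf_le ⟨s, h, rfl⟩

theorem X_lower {y : ℕ} (hy : 3 ≤ y) : 1 / 14 ≤ X y ∧ Real.log (Real.log y) ≤ X y := by
  have h1 : (27 : ℝ) / 25 ≤ Real.log y := by
    have h2 : Real.log 3 ≤ Real.log y := Real.log_le_log (by norm_num) (by exact_mod_cast hy)
    have h3 : (27 : ℝ) / 25 ≤ Real.log 3 := by
      rw [Real.le_log_iff_exp_le (by norm_num)]
      have h4 : Real.exp (27 / 25) = Real.exp 1 * Real.exp (2 / 25) := by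
        rw [← Real.exp_add]; norm_num
      have h5 : Real.exp 1 < 2.7182818286 := Real.exp_one_lt_d9
      have h6 : Real.exp (2 / 25) ≤ 1 / (1 - 2 / 25) := by
        rw [le_div_iff₀ (by norm_num)]
        have h7 := Real.add_one_le_exp (-(2 / 25) : ℝ)
        have h8 : Real.exp (2 / 25) * Real.exp (-(2 / 25)) = 1 := by
          rw [← Real.exp_add]; norm_num
        nlinarith [Real.exp_pos (2 / 25)]
      rw [h4]
      calc Real.exp 1 * Real.exp (2 / 25) ≤ 2.7182818286 * (1 / (1 - 2 / 25)) := by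
            gcongr
        _ ≤ 3 := by norm_num
    linarith
  have h2 : (1 : ℝ) / 14 ≤ Real.log (Real.log y) := by
    have h3 := Real.one_sub_inv_le_log_of_pos (x := Real.log y) (by linarith)
    have h4 : (Real.log y)⁻¹ ≤ 25 / 27 := by
      rw [inv_le_comm₀ (by linarith) (by norm_num)]
      norm_num
      linarith
    linarith
  have h3 : 1 ≤ Real.log (3 + Real.log (Real.log y)) := by
    rw [Real.le_log_iff_exp_le (by linarith)]
    have h5 : Real.exp 1 < 2.7182818286 := Real.exp_one_lt_d9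
    linarith
  constructor
  · unfold X
    nlinarith
  · unfold X
    nlinarith

theorem result :
    -- (1) short representations
    (∃ C : ℝ, ∀ x y : ℕ, 0 < x → x < y → 3 ≤ y → 1 ≤ minLen x y ∧ (minLen x y : ℝ) ≤ C * X y) ∧
    -- (2) the size of the denominators of a representation with `k` terms
    (∀ (x y : ℕ) (s : Finset ℕ), 0 < x → 0 < y → IsEgy x y s →
      ∀ n ∈ s, n ≤ (s.card * y) ^ (2 ^ (s.card - 1))) ∧
    -- (3) every shortest representation is a certificate of quasi-polynomial length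
    (∃ C : ℝ, ∀ x y : ℕ, 0 < x → x < y → 3 ≤ y →
      (∀ s, IsEgy x y s → s.card = minLen x y → ∀ n ∈ s, Real.log n ≤ Real.exp (C * X y)) ∧
      ∀ k : ℕ, minLen x y ≤ k ↔
        ∃ s, IsEgy x y s ∧ s.card ≤ k ∧ ∀ n ∈ s, Real.log n ≤ Real.exp (C * X y)) := by
  have hden : ∀ (x y : ℕ) (s : Finset ℕ), 0 < x → 0 < y → IsEgy x y s →
      ∀ n ∈ s, n ≤ (s.card * y) ^ (2 ^ (s.card - 1)) :=
    fun x y s hx hy h => den_le s.card x y s hx hy h.2.1 rfl h.2.2
  obtain ⟨C, hC⟩ := Pool.Agent.H256R2.EF.main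
  have hlen : ∀ x y : ℕ, 0 < x → x < y → 3 ≤ y → 1 ≤ minLen x y ∧ (minLen x y : ℝ) ≤ C * X y := by
    intro x y hx hxy hy
    obtain ⟨s, hs, hcard⟩ := exists_rep hx hxy hy
    obtain ⟨S, h0, hS, hSC⟩ := hC x y hx hxy hy
    have hne : S.Nonempty := by
      rw [nonempty_iff_ne_empty]
      rintro rfl
      rw [sum_empty] at hS
      have : (0 : ℚ) < (x : ℚ) / y := by
        have h1 : (0 : ℚ) < x := by exact_mod_cast hx
        have h2 : (0 : ℚ) < y := by exact_mod_cast (by omega : 0 < y)
        positivity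
      linarith
    refine ⟨?_, le_trans ?_ hSC⟩
    · rw [← hcard]
      exact card_pos.2 hs.1
    · exact_mod_cast minLen_le ⟨hne, fun n hn => Nat.pos_of_ne_zero (fun h => h0 (h ▸ hn)), hS⟩
  refine ⟨⟨C, hlen⟩, hden, 2 * C + 15, fun x y hx hxy hy => ?_⟩
  obtain ⟨hX1, hX2⟩ := X_lower hy
  have hcert : ∀ s, IsEgy x y s → s.card = minLen x y →
      ∀ n ∈ s, Real.log n ≤ Real.exp ((2 * C + 15) * X y) := by
    intro s hs hcard n hn
    obtain ⟨hk1, hk2⟩ := hlen x y hx hxy hy
    rw [← hcard] at hk1 hk2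
    obtain ⟨k, hk⟩ : ∃ k, k = s.card := ⟨_, rfl⟩
    rw [← hk] at hk1 hk2
    have h1 := hden x y s hx (by omega) hs n hn
    rw [← hk] at h1
    have hn0 : 0 < n := hs.2.1 n hn
    have hy0 : (0 : ℝ) < y := by exact_mod_cast (by omega : 0 < y)
    have hk0 : (0 : ℝ) < k := by exact_mod_cast hk1
    have hly : 0 < Real.log y := Real.log_pos (by exact_mod_cast (by omega : 1 < y))
    have h2 : Real.log n ≤ 2 ^ (k - 1) * (Real.log k + Real.log y) := by
      have h3 : (n : ℝ) ≤ ((k : ℝ) * y) ^ (2 ^ (k - 1)) := by exact_mod_cast h1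
      have h4 := Real.log_le_log (by exact_mod_cast hn0) h3
      rw [Real.log_pow, Real.log_mul hk0.ne' hy0.ne'] at h4
      push_cast at h4
      exact h4
    have h2k : (2 : ℝ) ^ (k - 1) ≤ Real.exp k := by
      have h5 : (2 : ℝ) ≤ Real.exp 1 := by
        have := Real.add_one_le_exp (1 : ℝ)
        linarith
      calc (2 : ℝ) ^ (k - 1) ≤ 2 ^ k := pow_le_pow_right₀ (by norm_num) (Nat.sub_le k 1)
        _ ≤ (Real.exp 1) ^ k := pow_le_pow_left₀ (by norm_num) h5 k
        _ = Real.exp k := by rw [← Real.exp_nat_mul, mul_one]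
    have hlk : Real.log k ≤ Real.exp k := by
      have h6 := Real.log_le_sub_one_of_pos hk0
      have h7 := Real.add_one_le_exp (k : ℝ)
      linarith
    have hlk0 : 0 ≤ Real.log k := Real.log_nonneg (by exact_mod_cast hk1)
    have hyX : Real.log y ≤ Real.exp (X y) := by
      calc Real.log y = Real.exp (Real.log (Real.log y)) := (Real.exp_log hly).symm
        _ ≤ _ := Real.exp_le_exp.2 hX2
    have hkX : Real.exp k ≤ Real.exp (C * X y) := Real.exp_le_exp.2 hk2
    have e1 : Real.exp (C * X y) ≤ Real.exp ((C + 1) * X y) :=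
      Real.exp_le_exp.2 (by nlinarith)
    have hC0 : 0 ≤ C * X y := hk0.le.trans hk2
    have e2 : Real.exp (X y) ≤ Real.exp ((C + 1) * X y) :=
      Real.exp_le_exp.2 (by nlinarith)
    have e3 : (2 : ℝ) ≤ Real.exp (14 * X y) := by
      have := Real.add_one_le_exp (14 * X y)
      linarith
    calc Real.log n ≤ 2 ^ (k - 1) * (Real.log k + Real.log y) := h2
      _ ≤ Real.exp (C * X y) * (Real.exp ((C + 1) * X y) + Real.exp ((C + 1) * X y)) := by
          apply mul_le_mul (h2k.trans hkX) _ (by positivity) (by positivity)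
          exact add_le_add (hlk.trans (hkX.trans e1)) (hyX.trans e2)
      _ = 2 * (Real.exp (C * X y) * Real.exp ((C + 1) * X y)) := by ring
      _ ≤ Real.exp (14 * X y) * (Real.exp (C * X y) * Real.exp ((C + 1) * X y)) := by
          gcongr
      _ = Real.exp ((2 * C + 15) * X y) := by
          rw [← Real.exp_add, ← Real.exp_add]
          congr 1
          ring
  refine ⟨hcert, fun k => ⟨fun hk => ?_, ?_⟩⟩
  · obtain ⟨s, hs, hcard⟩ := exists_rep hx hxy hy
    exact ⟨s, hs, hcard ▸ hk, hcert s hs hcard⟩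
  · rintro ⟨s, hs, hcard, -⟩
    exact (minLen_le hs).trans hcard

end Pool.Agent.Results.MP_a692c2_lc.ShortRepresentations
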